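import Mathlib

/-!
Definitions for MP_ed2cb0_co (slide IR-graphs), in the words of the problem file.
-/

set_option autoImplicit false

namespace Pool.Agent.H59.IRG

/-- `w` is an `X`-private neighbour of `x`: `N[w] ∩ X = {x}`, where `N[w]` consists of `w` and its
neighbours. -/
def IsPrivate {V : Type} (G : SimpleGraph V) (X : Finset V) (x w : V) : Prop :=
  {u : V | (u = w ∨ G.Adj w u) ∧ u ∈ X} = {x}

/-- `X` is irredundant: every `x` in `X` has an `X`-private neighbour. -/
def Irredundant {V : Type} (G : SimpleGraph V) (X : Finset V) : Prop :=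
  ∀ x ∈ X, ∃ w : V, IsPrivate G X x w

/-- IR-set: an irredundant set of the largest size. -/
def IsIRSet {V : Type} (G : SimpleGraph V) (X : Finset V) : Prop :=
  Irredundant G X ∧ ∀ Y : Finset V, Irredundant G Y → Y.card ≤ X.card

/-- The slide IR-graph `G(IR)`: the vertices are the IR-sets of `G`, and `D`, `D'` are adjacent if and
only if there are adjacent vertices `v ∈ D`, `v' ∈ D'` of `G` with `D' = (D - v) + v'`. -/
def slideGraph {V : Type} [DecidableEq V] (G : SimpleGraph V) :
    SimpleGraph {X : Finset V // IsIRSet G X} where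
  Adj D D' := ∃ v ∈ D.1, ∃ v' ∈ D'.1, G.Adj v v' ∧ D'.1 = insert v' (D.1.erase v)
  symm := ⟨by
    rintro D D' ⟨v, hv, v', hv', ha, he⟩
    refine ⟨v', hv', v, hv, ha.symm, ?_⟩
    have hn : v' ∉ D.1.erase v := by
      intro h
      rw [Finset.insert_eq_of_mem h] at he
      have h1 := D'.2.2 D.1 D.2.1
      rw [he] at h1
      have h2 := Finset.card_erase_lt_of_mem hv
      omega
    rw [he, Finset.erase_insert hn, Finset.insert_erase hv]⟩
  loopless := ⟨by
    rintro D ⟨v, hv, v', hv', ha, he⟩
    rw [he] at hv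
    rcases Finset.mem_insert.mp hv with h | h
    · exact ha.ne h
    · exact (Finset.notMem_erase v D.1) h⟩

/-- `H` is an IR-graph: isomorphic to the slide IR-graph of some finite graph. -/
def IsIRGraph {U : Type} (H : SimpleGraph U) : Prop :=
  ∃ (V : Type) (_ : Fintype V) (_ : DecidableEq V) (G : SimpleGraph V),
    Nonempty (H ≃g slideGraph G)

/-- Claw-free: no induced `K_{1,3}` (three neighbours `b, c, d` of `a` are never independent). -/
def ClawFree {U : Type} (H : SimpleGraph U) : Prop :=
  ∀ a b c d : U, H.Adj a b → H.Adj a c → H.Adj a d → b ≠ c → b ≠ d → c ≠ d →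
    H.Adj b c ∨ H.Adj b d ∨ H.Adj c d

/-- The lollipop on the vertices `0, 1, .., 6 + a`: the path `0, 1, 2, 3, 4, 5` together with the
complete graph on the vertices `5, 6, .., 6 + a` (for `a = 0` the path on seven vertices). -/
def lollipop (a : ℕ) : SimpleGraph (Fin (6 + (a + 1))) where
  Adj i j := i ≠ j ∧ (i.val + 1 = j.val ∨ j.val + 1 = i.val ∨ (5 ≤ i.val ∧ 5 ≤ j.val))
  symm := ⟨by
    rintro i j ⟨h, h'⟩
    exact ⟨h.symm, by tauto⟩⟩
  loopless := ⟨by
    rintro i ⟨h, _⟩
    exact h rfl⟩

end Pool.Agent.H59.IRG
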