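import Mathlib

/-! The witness graph on nine vertices and its irredundant sets (finite checks). -/

set_option autoImplicit false

namespace Pool.Agent.H59.IRG

/-- Adjacency masks of the witness graph on nine vertices. -/
def mask : Fin 9 → ℕ := ![480, 472, 440, 214, 302, 341, 171, 79, 55]

/-- The witness graph on nine vertices. -/
def W : SimpleGraph (Fin 9) where
  Adj i j := Nat.testBit (mask i) j.val = true
  symm := ⟨by decide⟩
  loopless := ⟨by decide⟩

instance : DecidableRel W.Adj :=
  fun i j => inferInstanceAs (Decidable (Nat.testBit (mask i) j.val = true))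

/-- Irredundance in `W`. -/
abbrev IrrW (D : Finset (Fin 9)) : Prop :=
  ∀ v ∈ D, ∃ w : Fin 9, (v = w ∨ W.Adj w v) ∧ ∀ u ∈ D, (u = w ∨ W.Adj w u) → u = v

/-- The seven IR-sets, listed along the path. -/
def S : Fin 7 → Finset (Fin 9) :=
  ![{2,4,5}, {2,5,8}, {0,2,8}, {0,1,2}, {0,1,7}, {1,6,7}, {1,3,6}]

set_option maxRecDepth 100000 in
theorem irr_card : ∀ F : Finset (Fin 9), IrrW F → F.card ≤ 3 := by decide +kernel

set_option maxRecDepth 100000 in
theorem irr_sets : ∀ F : Finset (Fin 9), IrrW F → F.card = 3 → ∃ i, S i = F := by decide +kernel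

theorem S_irr : ∀ i, IrrW (S i) := by decide +kernel

theorem S_card : ∀ i, (S i).card = 3 := by decide +kernel

theorem S_inj : ∀ i j, S i = S j → i = j := by decide +kernel

theorem S_three : ∀ i : Fin 7, (3 : Fin 9) ∈ S i → i = 6 := by decide +kernel

set_option maxRecDepth 100000 in
theorem S_adj : ∀ i j : Fin 7,
    (∃ u ∈ S i, ∃ u' ∈ S j, W.Adj u u' ∧ S j = insert u' ((S i).erase u)) ↔
    (i.val + 1 = j.val ∨ j.val + 1 = i.val) := by decide +kernel

theorem W73 : W.Adj 7 3 := by decide +kernel

end Pool.Agent.H59.IRG
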