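import Pool.Agent.H59.IRG.Main

/-! The slide graph of `G a` is the lollipop. -/

set_option autoImplicit false

namespace Pool.Agent.H59.IRG

variable {a : ℕ}

theorem image_erase_pr (X : Finset (Fin 9 ⊕ Fin a)) (h : Set.InjOn (pr a) X)
    (v : Fin 9 ⊕ Fin a) (hv : v ∈ X) :
    (X.erase v).image (pr a) = (X.image (pr a)).erase (pr a v) := by
  ext s
  simp only [Finset.mem_image, Finset.mem_erase]
  constructor
  · rintro ⟨y, ⟨hy, hyX⟩, rfl⟩
    exact ⟨fun he => hy (h hyX hv he), y, hyX, rfl⟩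
  · rintro ⟨hs, y, hyX, rfl⟩
    exact ⟨y, ⟨fun he => hs (by rw [he]), hyX⟩, rfl⟩

theorem W_ne {u v : Fin 9} (h : W.Adj u v) : u ≠ v := W.ne_of_adj h

/-- Adjacency in the lollipop, on the sum type. -/
def LA (a : ℕ) (p q : Fin 6 ⊕ Fin (a + 1)) : Prop :=
  p ≠ q ∧ ((idx a p).val + 1 = (idx a q).val ∨ (idx a q).val + 1 = (idx a p).val ∨
    ((idx a p).val = 6 ∧ (idx a q).val = 6))

/-- The vertex of the slide graph. -/
def FV (a : ℕ) (p : Fin 6 ⊕ Fin (a + 1)) : {X : Finset (Fin 9 ⊕ Fin a) // IsIRSet (G a) X} :=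
  ⟨F a p, isIR_F p⟩

theorem adj_imp (p q : Fin 6 ⊕ Fin (a + 1)) (h : (slideGraph (G a)).Adj (FV a p) (FV a q)) :
    LA a p q := by
  have hne : p ≠ q := by
    intro he
    rw [he] at h
    exact (slideGraph (G a)).loopless.irrefl _ h
  refine ⟨hne, ?_⟩
  obtain ⟨v, hv, v', hv', ha, he⟩ := h
  have hv1 : v ∈ F a p := hv
  have hv1' : v' ∈ F a q := hv'
  have he1 : F a q = insert v' ((F a p).erase v) := he
  have him : S (idx a q) = insert (pr a v') ((S (idx a p)).erase (pr a v)) := by
    rw [← image_F q, he1, Finset.image_insert, image_erase_pr _ (injOn_F p) v hv1, image_F]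
  have hvS : pr a v ∈ S (idx a p) := by
    rw [← image_F]; exact Finset.mem_image_of_mem _ hv1
  have hvS' : pr a v' ∈ S (idx a q) := by
    rw [← image_F]; exact Finset.mem_image_of_mem _ hv1'
  rcases ha.2 with h1 | h1
  · rw [← h1, Finset.insert_erase hvS] at him
    have hidx := S_inj _ _ him
    right; right
    rcases p with i | s <;> rcases q with j | t
    · exfalso
      have : j.castSucc = i.castSucc := hidx
      exact hne (by rw [Fin.castSucc_injective 6 this])
    · exfalso
      have h2 : (6 : Fin 7) = i.castSucc := hidx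
      have h3 := congrArg Fin.val h2
      have h4 := i.isLt
      simp at h3
      omega
    · exfalso
      have h2 : j.castSucc = (6 : Fin 7) := hidx
      have h3 := congrArg Fin.val h2
      have h4 := j.isLt
      simp at h3
      omega
    · exact ⟨rfl, rfl⟩
  · have h2 := (S_adj (idx a p) (idx a q)).mp ⟨pr a v, hvS, pr a v', hvS', h1, him⟩
    rcases h2 with h2 | h2
    · exact Or.inl h2
    · exact Or.inr (Or.inl h2)

theorem adj_ll (i j : Fin 6) (h : i.val + 1 = j.val ∨ j.val + 1 = i.val) :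
    (slideGraph (G a)).Adj (FV a (Sum.inl i)) (FV a (Sum.inl j)) := by
  obtain ⟨u, hu, u', hu', hW, he⟩ := (S_adj i.castSucc j.castSucc).mpr (by simpa using h)
  refine ⟨Sum.inl u, ?_, Sum.inl u', ?_, ⟨?_, Or.inr hW⟩, ?_⟩
  · exact Finset.mem_image_of_mem _ hu
  · exact Finset.mem_image_of_mem _ hu'
  · intro hcon
    exact W_ne hW (Sum.inl_injective hcon)
  · show (S j.castSucc).image Sum.inl = insert (Sum.inl u') (((S i.castSucc).image Sum.inl).erase (Sum.inl u))
    rw [← Finset.image_erase Sum.inl_injective, ← Finset.image_insert, he]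

theorem adj_lr (i : Fin 6) (t : Fin (a + 1)) (h : i.val = 5) :
    (slideGraph (G a)).Adj (FV a (Sum.inl i)) (FV a (Sum.inr t)) := by
  have hi : i = 5 := Fin.ext h
  subst hi
  refine ⟨Sum.inl 7, ?_, g a t, ?_, ⟨?_, Or.inr ?_⟩, ?_⟩
  · show Sum.inl 7 ∈ (S (Fin.castSucc 5)).image Sum.inl
    exact Finset.mem_image_of_mem _ (by decide)
  · show g a t ∈ ({Sum.inl 1, Sum.inl 6, g a t} : Finset (Fin 9 ⊕ Fin a))
    simp
  · intro hcon
    have := congrArg (pr a) hcon
    rw [pr_g] at this
    exact absurd this (by show ¬ ((7 : Fin 9) = 3); decide)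
  · rw [pr_g]
    exact W73
  · show ({Sum.inl 1, Sum.inl 6, g a t} : Finset (Fin 9 ⊕ Fin a)) =
      insert (g a t) (((S (Fin.castSucc 5)).image Sum.inl).erase (Sum.inl 7))
    rw [← Finset.image_erase Sum.inl_injective]
    have h1 : (S (Fin.castSucc 5)).erase 7 = {1, 6} := by decide
    rw [h1, Finset.image_insert, Finset.image_singleton]
    ext z
    simp only [Finset.mem_insert, Finset.mem_singleton]
    tauto

theorem adj_rr (s t : Fin (a + 1)) (h : s ≠ t) :
    (slideGraph (G a)).Adj (FV a (Sum.inr s)) (FV a (Sum.inr t)) := by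
  have hg : g a s ≠ g a t := fun he => h (g_inj s t he)
  refine ⟨g a s, ?_, g a t, ?_, ⟨hg, Or.inl ?_⟩, ?_⟩
  · show g a s ∈ ({Sum.inl 1, Sum.inl 6, g a s} : Finset (Fin 9 ⊕ Fin a))
    simp
  · show g a t ∈ ({Sum.inl 1, Sum.inl 6, g a t} : Finset (Fin 9 ⊕ Fin a))
    simp
  · rw [pr_g, pr_g]
  · show ({Sum.inl 1, Sum.inl 6, g a t} : Finset (Fin 9 ⊕ Fin a)) =
      insert (g a t) (({Sum.inl 1, Sum.inl 6, g a s} : Finset (Fin 9 ⊕ Fin a)).erase (g a s))
    have h1 : (Sum.inl 1 : Fin 9 ⊕ Fin a) ≠ g a s := by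
      intro hcon
      have := congrArg (pr a) hcon
      rw [pr_g] at this
      exact absurd this (by show ¬ ((1 : Fin 9) = 3); decide)
    have h6 : (Sum.inl 6 : Fin 9 ⊕ Fin a) ≠ g a s := by
      intro hcon
      have := congrArg (pr a) hcon
      rw [pr_g] at this
      exact absurd this (by show ¬ ((6 : Fin 9) = 3); decide)
    ext z
    simp only [Finset.mem_insert, Finset.mem_singleton, Finset.mem_erase]
    constructor
    · rintro (hz | hz | hz)
      · right; rw [hz]; exact ⟨h1, Or.inl rfl⟩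
      · right; rw [hz]; exact ⟨h6, Or.inr (Or.inl rfl)⟩
      · left; exact hz
    · rintro (hz | ⟨hz, hz' | hz' | hz'⟩)
      · right; right; exact hz
      · left; exact hz'
      · right; left; exact hz'
      · exact absurd hz' hz

theorem adj_iff (p q : Fin 6 ⊕ Fin (a + 1)) :
    (slideGraph (G a)).Adj (FV a p) (FV a q) ↔ LA a p q := by
  constructor
  · exact adj_imp p q
  · rintro ⟨hne, h⟩
    rcases p with i | s <;> rcases q with j | t
    · have hi := i.isLt
      have hj := j.isLt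
      simp only [idx, Sum.elim_inl, Fin.val_castSucc] at h
      apply adj_ll
      omega
    · have hi := i.isLt
      have e : (idx a (Sum.inr t)).val = 6 := rfl
      rw [e] at h
      have e' : (idx a (Sum.inl i)).val = i.val := rfl
      rw [e'] at h
      apply adj_lr
      omega
    · have hj := j.isLt
      have e : (idx a (Sum.inr s)).val = 6 := rfl
      rw [e] at h
      have e' : (idx a (Sum.inl j)).val = j.val := rfl
      rw [e'] at h
      apply SimpleGraph.Adj.symm
      apply adj_lr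
      omega
    · exact adj_rr s t (fun he => hne (by rw [he]))

theorem lol_iff (p q : Fin 6 ⊕ Fin (a + 1)) :
    (lollipop a).Adj (finSumFinEquiv p) (finSumFinEquiv q) ↔ LA a p q := by
  unfold lollipop LA
  simp only
  rw [Ne, EmbeddingLike.apply_eq_iff_eq]
  apply and_congr_right
  intro hne
  rcases p with i | s <;> rcases q with j | t
  · have hi := i.isLt
    have hj := j.isLt
    have hij : i.val ≠ j.val := fun he => hne (by rw [Fin.ext he])
    simp only [idx, Sum.elim_inl, Fin.val_castSucc, finSumFinEquiv_apply_left, Fin.val_castAdd]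
    omega
  · have hi := i.isLt
    have ht := t.isLt
    have e : (idx a (Sum.inr t)).val = 6 := rfl
    have e' : (idx a (Sum.inl i)).val = i.val := rfl
    rw [e, e']
    simp only [finSumFinEquiv_apply_left, finSumFinEquiv_apply_right, Fin.val_castAdd, Fin.val_natAdd]
    omega
  · have hj := j.isLt
    have hs := s.isLt
    have e : (idx a (Sum.inr s)).val = 6 := rfl
    have e' : (idx a (Sum.inl j)).val = j.val := rfl
    rw [e, e']
    simp only [finSumFinEquiv_apply_left, finSumFinEquiv_apply_right, Fin.val_castAdd, Fin.val_natAdd]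
    omega
  · have e : (idx a (Sum.inr s)).val = 6 := rfl
    have e' : (idx a (Sum.inr t)).val = 6 := rfl
    rw [e, e']
    have hs : (finSumFinEquiv (Sum.inr s : Fin 6 ⊕ Fin (a + 1))).val = 6 + s.val := by
      rw [finSumFinEquiv_apply_right, Fin.val_natAdd]
    have ht : (finSumFinEquiv (Sum.inr t : Fin 6 ⊕ Fin (a + 1))).val = 6 + t.val := by
      rw [finSumFinEquiv_apply_right, Fin.val_natAdd]
    constructor
    · intro _
      exact Or.inr (Or.inr ⟨rfl, rfl⟩)
    · intro _
      right; right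
      constructor <;> omega

theorem FV_bij : Function.Bijective (FV a) := by
  constructor
  · intro p q h
    exact F_inj p q (congrArg Subtype.val h)
  · rintro ⟨X, hX⟩
    obtain ⟨p, hp⟩ := F_surj X hX
    exact ⟨p, Subtype.ext hp⟩

/-- The isomorphism. -/
noncomputable def theIso (a : ℕ) : lollipop a ≃g slideGraph (G a) where
  toEquiv := finSumFinEquiv.symm.trans (Equiv.ofBijective (FV a) FV_bij)
  map_rel_iff' := by
    intro x y
    obtain ⟨p, rfl⟩ := finSumFinEquiv.surjective x
    obtain ⟨q, rfl⟩ := finSumFinEquiv.surjective y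
    rw [lol_iff, ← adj_iff]
    simp

theorem isIRGraph (a : ℕ) : IsIRGraph (lollipop a) :=
  ⟨Fin 9 ⊕ Fin a, inferInstance, inferInstance, G a, ⟨theIso a⟩⟩

theorem clawFree (a : ℕ) : ClawFree (lollipop a) := by
  intro x b c d hb hc hd hbc hbd hcd
  obtain ⟨h1, h1'⟩ := hb
  obtain ⟨h2, h2'⟩ := hc
  obtain ⟨h3, h3'⟩ := hd
  have e1 : b.val ≠ c.val := fun he => hbc (Fin.ext he)
  have e2 : b.val ≠ d.val := fun he => hbd (Fin.ext he)
  have e3 : c.val ≠ d.val := fun he => hcd (Fin.ext he)
  have f1 : x.val ≠ b.val := fun he => h1 (Fin.ext he)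
  have f2 : x.val ≠ c.val := fun he => h2 (Fin.ext he)
  have f3 : x.val ≠ d.val := fun he => h3 (Fin.ext he)
  by_cases p1 : 5 ≤ b.val ∧ 5 ≤ c.val
  · exact Or.inl ⟨hbc, Or.inr (Or.inr p1)⟩
  by_cases p2 : 5 ≤ b.val ∧ 5 ≤ d.val
  · exact Or.inr (Or.inl ⟨hbd, Or.inr (Or.inr p2)⟩)
  by_cases p3 : 5 ≤ c.val ∧ 5 ≤ d.val
  · exact Or.inr (Or.inr ⟨hcd, Or.inr (Or.inr p3)⟩)
  exfalso
  omega

theorem connected (a : ℕ) : (lollipop a).Connected := by
  have key : ∀ k : ℕ, ∀ hk : k < 6 + (a + 1),
      (lollipop a).Reachable ⟨0, by omega⟩ ⟨k, hk⟩ := by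
    intro k
    induction k with
    | zero => intro hk; exact SimpleGraph.Reachable.refl _
    | succ k ih =>
      intro hk
      refine (ih (by omega)).trans (SimpleGraph.Adj.reachable ⟨?_, Or.inl rfl⟩)
      intro he
      have := congrArg Fin.val he
      simp at this
  have : Nonempty (Fin (6 + (a + 1))) := ⟨⟨0, by omega⟩⟩
  refine ⟨fun x y => ?_⟩
  exact ((key x.val x.isLt).symm).trans (key y.val y.isLt)

theorem not_complete (a : ℕ) (U : Type) : IsEmpty (lollipop a ≃g (⊤ : SimpleGraph U)) := by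
  refine ⟨fun f => ?_⟩
  have h : (lollipop a).Adj ⟨0, by omega⟩ ⟨2, by omega⟩ := by
    rw [← f.map_adj_iff, SimpleGraph.top_adj]
    intro he
    have := congrArg Fin.val (f.injective he)
    simp at this
  obtain ⟨_, h'⟩ := h
  simp at h'

theorem not_box (a m n : ℕ) (hm : 2 ≤ m) (hn : 2 ≤ n) :
    IsEmpty (lollipop a ≃g ((⊤ : SimpleGraph (Fin m)) □ (⊤ : SimpleGraph (Fin n)))) := by
  refine ⟨fun f => ?_⟩
  set z : Fin (6 + (a + 1)) := ⟨0, by omega⟩ with hz
  have h1 : ∀ y, (lollipop a).Adj z y → y.val = 1 := by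
    intro y hy
    obtain ⟨hne, h⟩ := hy
    simp [hz] at h
    omega
  obtain ⟨i, j, h0⟩ : ∃ i j, f z = (i, j) := ⟨(f z).1, (f z).2, rfl⟩
  have : Nontrivial (Fin m) := Fin.nontrivial_iff_two_le.mpr hm
  have : Nontrivial (Fin n) := Fin.nontrivial_iff_two_le.mpr hn
  obtain ⟨i', hi⟩ := exists_ne i
  obtain ⟨j', hj⟩ := exists_ne j
  have a1 : ((⊤ : SimpleGraph (Fin m)) □ (⊤ : SimpleGraph (Fin n))).Adj (i, j) (i', j) := by
    rw [SimpleGraph.boxProd_adj]
    left
    exact ⟨fun he => hi he.symm, rfl⟩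
  have a2 : ((⊤ : SimpleGraph (Fin m)) □ (⊤ : SimpleGraph (Fin n))).Adj (i, j) (i, j') := by
    rw [SimpleGraph.boxProd_adj]
    right
    exact ⟨fun he => hj he.symm, rfl⟩
  have b1 : (lollipop a).Adj z (f.symm (i', j)) := by
    rw [← f.map_adj_iff, f.apply_symm_apply, h0]
    exact a1
  have b2 : (lollipop a).Adj z (f.symm (i, j')) := by
    rw [← f.map_adj_iff, f.apply_symm_apply, h0]
    exact a2
  have c1 := h1 _ b1
  have c2 := h1 _ b2
  have := f.symm.injective (Fin.ext (c1.trans c2.symm))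
  exact hi (congrArg Prod.fst this)

end Pool.Agent.H59.IRG
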