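import Pool.Agent.H59.IRG.Defs
import Pool.Agent.H59.IRG.Fin9

/-! The lollipops are IR-graphs. -/

set_option autoImplicit false

namespace Pool.Agent.H59.IRG

/-- The projection of the blown-up vertex set onto the nine vertices. -/
def pr (a : ℕ) : Fin 9 ⊕ Fin a → Fin 9 := Sum.elim id (fun _ => 3)

/-- `W` with `a` further true twins of the vertex `3`. -/
def G (a : ℕ) : SimpleGraph (Fin 9 ⊕ Fin a) where
  Adj x y := x ≠ y ∧ (pr a x = pr a y ∨ W.Adj (pr a x) (pr a y))
  symm := ⟨by
    rintro x y ⟨h, h'⟩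
    refine ⟨h.symm, ?_⟩
    rcases h' with h' | h'
    · exact Or.inl h'.symm
    · exact Or.inr h'.symm⟩
  loopless := ⟨by
    rintro x ⟨h, _⟩
    exact h rfl⟩

variable {a : ℕ}

theorem mem_cn (w u : Fin 9 ⊕ Fin a) :
    (u = w ∨ (G a).Adj w u) ↔ (pr a u = pr a w ∨ W.Adj (pr a w) (pr a u)) := by
  constructor
  · rintro (h | ⟨_, h | h⟩)
    · exact Or.inl (by rw [h])
    · exact Or.inl h.symm
    · exact Or.inr h
  · intro h
    by_cases he : u = w
    · exact Or.inl he
    · refine Or.inr ⟨fun h' => he h'.symm, ?_⟩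
      rcases h with h | h
      · exact Or.inl h.symm
      · exact Or.inr h

theorem irr_iff (X : Finset (Fin 9 ⊕ Fin a)) :
    Irredundant (G a) X ↔ Set.InjOn (pr a) X ∧ IrrW (X.image (pr a)) := by
  constructor
  · intro h
    have key : ∀ x ∈ X, ∃ w, (pr a x = pr a w ∨ W.Adj (pr a w) (pr a x)) ∧
        ∀ u ∈ X, (pr a u = pr a w ∨ W.Adj (pr a w) (pr a u)) → u = x := by
      intro x hx
      obtain ⟨w, hw⟩ := h x hx
      unfold IsPrivate at hw
      refine ⟨w, ?_, ?_⟩
      · have h1 : x ∈ ({x} : Set (Fin 9 ⊕ Fin a)) := rfl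
        rw [← hw] at h1
        exact (mem_cn w x).mp h1.1
      · intro u hu hc
        have h1 : u ∈ {u : Fin 9 ⊕ Fin a | (u = w ∨ (G a).Adj w u) ∧ u ∈ X} :=
          ⟨(mem_cn w u).mpr hc, hu⟩
        rw [hw] at h1
        exact h1
    constructor
    · intro x hx y hy hxy
      obtain ⟨w, h1, h2⟩ := key x hx
      exact (h2 y hy (by rw [← hxy]; exact h1)).symm
    · intro s hs
      obtain ⟨x, hx, rfl⟩ := Finset.mem_image.mp hs
      obtain ⟨w, h1, h2⟩ := key x hx
      refine ⟨pr a w, h1, ?_⟩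
      intro u hu hc
      obtain ⟨y, hy, rfl⟩ := Finset.mem_image.mp hu
      rw [h2 y hy hc]
  · rintro ⟨hi, hW⟩ x hx
    obtain ⟨w, h1, h2⟩ := hW (pr a x) (Finset.mem_image_of_mem _ hx)
    refine ⟨Sum.inl w, ?_⟩
    have hpr : pr a (Sum.inl w) = w := rfl
    unfold IsPrivate
    ext u
    constructor
    · rintro ⟨hu, huX⟩
      rw [mem_cn, hpr] at hu
      have := h2 (pr a u) (Finset.mem_image_of_mem _ huX) hu
      exact hi huX hx this
    · intro hu
      have hu' : u = x := hu
      subst hu'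
      refine ⟨?_, hx⟩
      rw [mem_cn, hpr]
      exact h1

/-- The members of the fibre over `3`. -/
def g (a : ℕ) : Fin (a + 1) → Fin 9 ⊕ Fin a := Fin.cases (Sum.inl 3) Sum.inr

theorem pr_g (t : Fin (a + 1)) : pr a (g a t) = 3 := by
  refine Fin.cases ?_ (fun s => ?_) t
  · rfl
  · rfl

theorem g_inj (s t : Fin (a + 1)) (h : g a s = g a t) : s = t := by
  revert h
  refine Fin.cases ?_ (fun s' => ?_) s <;> refine Fin.cases ?_ (fun t' => ?_) t
  · intro _; rfl
  · intro h; exact absurd h (by simp [g])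
  · intro h; exact absurd h (by simp [g])
  · intro h
    have : s' = t' := by simpa [g] using h
    rw [this]

theorem g_surj (x : Fin 9 ⊕ Fin a) (h : pr a x = 3) : ∃ t, g a t = x := by
  rcases x with i | j
  · refine ⟨0, ?_⟩
    have : i = 3 := h
    rw [this]
    rfl
  · exact ⟨j.succ, rfl⟩

theorem pr_ne (x : Fin 9 ⊕ Fin a) (h : pr a x ≠ 3) : x = Sum.inl (pr a x) := by
  rcases x with i | j
  · rfl
  · exact absurd rfl h

/-- The IR-sets of `G a`. -/
def F (a : ℕ) : Fin 6 ⊕ Fin (a + 1) → Finset (Fin 9 ⊕ Fin a) :=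
  Sum.elim (fun i => (S i.castSucc).image Sum.inl)
    (fun t => {Sum.inl 1, Sum.inl 6, g a t})

/-- The index of the projected set. -/
def idx (a : ℕ) : Fin 6 ⊕ Fin (a + 1) → Fin 7 := Sum.elim Fin.castSucc (fun _ => 6)

theorem image_F (p : Fin 6 ⊕ Fin (a + 1)) : (F a p).image (pr a) = S (idx a p) := by
  rcases p with i | t
  · show ((S i.castSucc).image Sum.inl).image (pr a) = S i.castSucc
    rw [Finset.image_image]
    exact Finset.image_id
  · show ({Sum.inl 1, Sum.inl 6, g a t} : Finset (Fin 9 ⊕ Fin a)).image (pr a) = S 6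
    rw [Finset.image_insert, Finset.image_insert, Finset.image_singleton, pr_g]
    show ({1, 6, 3} : Finset (Fin 9)) = S 6
    decide

theorem injOn_F (p : Fin 6 ⊕ Fin (a + 1)) : Set.InjOn (pr a) (F a p) := by
  rcases p with i | t
  · intro x hx y hy hxy
    have hx' : x ∈ (S i.castSucc).image Sum.inl := hx
    have hy' : y ∈ (S i.castSucc).image Sum.inl := hy
    obtain ⟨u, _, rfl⟩ := Finset.mem_image.mp hx'
    obtain ⟨v, _, rfl⟩ := Finset.mem_image.mp hy'
    have : u = v := hxy
    rw [this]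
  · intro x hx y hy hxy
    have h1 : ∀ z ∈ F a (Sum.inr t), z = Sum.inl 1 ∨ z = Sum.inl 6 ∨ z = g a t := by
      intro z hz
      have hz' : z ∈ ({Sum.inl 1, Sum.inl 6, g a t} : Finset (Fin 9 ⊕ Fin a)) := hz
      simpa using hz'
    have e1 : pr a (Sum.inl 1) = 1 := rfl
    have e6 : pr a (Sum.inl 6) = 6 := rfl
    rcases h1 x hx with h | h | h <;> rcases h1 y hy with h' | h' | h' <;>
      rw [h, h'] at hxy ⊢ <;> simp only [e1, e6, pr_g] at hxy <;>
      first | rfl | exact absurd hxy (by decide)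

theorem card_image_of_injOn (X : Finset (Fin 9 ⊕ Fin a)) (h : Set.InjOn (pr a) X) :
    X.card = (X.image (pr a)).card := (Finset.card_image_of_injOn h).symm

theorem card_F (p : Fin 6 ⊕ Fin (a + 1)) : (F a p).card = 3 := by
  rw [card_image_of_injOn _ (injOn_F p), image_F, S_card]

theorem irr_F (p : Fin 6 ⊕ Fin (a + 1)) : Irredundant (G a) (F a p) := by
  rw [irr_iff, image_F]
  exact ⟨injOn_F p, S_irr _⟩

theorem irr_le (Y : Finset (Fin 9 ⊕ Fin a)) (h : Irredundant (G a) Y) : Y.card ≤ 3 := by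
  rw [irr_iff] at h
  rw [card_image_of_injOn _ h.1]
  exact irr_card _ h.2

theorem isIR_F (p : Fin 6 ⊕ Fin (a + 1)) : IsIRSet (G a) (F a p) :=
  ⟨irr_F p, fun Y hY => by rw [card_F]; exact irr_le Y hY⟩

theorem F_inj (p q : Fin 6 ⊕ Fin (a + 1)) (h : F a p = F a q) : p = q := by
  have h1 : idx a p = idx a q := S_inj _ _ (by rw [← image_F, ← image_F, h])
  rcases p with i | s <;> rcases q with j | t
  · have : i.castSucc = j.castSucc := h1
    rw [Fin.castSucc_injective 6 this]
  · exfalso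
    have : i.castSucc = (6 : Fin 7) := h1
    have h2 := congrArg Fin.val this
    have h3 := i.isLt
    simp at h2
    omega
  · exfalso
    have : (6 : Fin 7) = j.castSucc := h1
    have h2 := congrArg Fin.val this
    have h3 := j.isLt
    simp at h2
    omega
  · have hs : g a s ∈ F a (Sum.inr t) := by
      rw [← h]
      show g a s ∈ ({Sum.inl 1, Sum.inl 6, g a s} : Finset (Fin 9 ⊕ Fin a))
      simp
    have ht : g a t ∈ F a (Sum.inr t) := by
      show g a t ∈ ({Sum.inl 1, Sum.inl 6, g a t} : Finset (Fin 9 ⊕ Fin a))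
      simp
    have := injOn_F (Sum.inr t) hs ht (by rw [pr_g, pr_g])
    rw [g_inj s t this]

theorem F_surj (X : Finset (Fin 9 ⊕ Fin a)) (h : IsIRSet (G a) X) : ∃ p, F a p = X := by
  have h0 := (irr_iff X).mp h.1
  have hc : (X.image (pr a)).card = 3 := by
    rw [← card_image_of_injOn _ h0.1]
    apply le_antisymm (irr_le X h.1)
    have := h.2 (F a (Sum.inl 0)) (irr_F _)
    rwa [card_F] at this
  obtain ⟨k, hk⟩ := irr_sets _ h0.2 hc
  by_cases h3 : (3 : Fin 9) ∈ S k
  · have hk6 := S_three k h3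
    subst hk6
    have h3' : (3 : Fin 9) ∈ X.image (pr a) := by rw [← hk]; exact h3
    obtain ⟨x, hx, hx3⟩ := Finset.mem_image.mp h3'
    obtain ⟨t, ht⟩ := g_surj x hx3
    refine ⟨Sum.inr t, ?_⟩
    have hm : ∀ i : Fin 9, i ∈ S 6 → i ≠ 3 → Sum.inl i ∈ X := by
      intro i hi hi3
      rw [hk] at hi
      obtain ⟨y, hy, hyi⟩ := Finset.mem_image.mp hi
      have : y = Sum.inl (pr a y) := pr_ne y (by rw [hyi]; exact hi3)
      rw [hyi] at this
      rw [← this]
      exact hy
    have h1 : Sum.inl 1 ∈ X := hm 1 (by decide) (by decide)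
    have h6 : Sum.inl 6 ∈ X := hm 6 (by decide) (by decide)
    have hsub : F a (Sum.inr t) ⊆ X := by
      intro z hz
      have hz' : z ∈ ({Sum.inl 1, Sum.inl 6, g a t} : Finset (Fin 9 ⊕ Fin a)) := hz
      have hz'' : z = Sum.inl 1 ∨ z = Sum.inl 6 ∨ z = g a t := by simpa using hz'
      rcases hz'' with h | h | h
      · rw [h]; exact h1
      · rw [h]; exact h6
      · rw [h, ht]; exact hx
    refine Finset.eq_of_subset_of_card_le hsub ?_
    rw [card_F, card_image_of_injOn _ h0.1, hc]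
  · have hk6 : k.val < 6 := by
      have h7 := k.isLt
      by_contra hcon
      have : k = 6 := Fin.ext (by simp; omega)
      rw [this] at h3
      exact h3 (by decide)
    refine ⟨Sum.inl ⟨k.val, hk6⟩, ?_⟩
    have hsub : F a (Sum.inl ⟨k.val, hk6⟩) ⊆ X := by
      intro z hz
      have hz' : z ∈ (S k).image Sum.inl := hz
      obtain ⟨i, hi, rfl⟩ := Finset.mem_image.mp hz'
      have hi3 : i ≠ 3 := fun he => h3 (by rw [← he]; exact hi)
      rw [hk] at hi
      obtain ⟨y, hy, hyi⟩ := Finset.mem_image.mp hi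
      have : y = Sum.inl (pr a y) := pr_ne y (by rw [hyi]; exact hi3)
      rw [hyi] at this
      rw [← this]
      exact hy
    refine Finset.eq_of_subset_of_card_le hsub ?_
    rw [card_F, card_image_of_injOn _ h0.1, hc]

end Pool.Agent.H59.IRG
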